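import Mathlib
import Pool.Agent.Helper39.Tri.Defs
import Pool.Agent.Helper39.Tri.Final

/-!
# No linear threshold for isolated cliques
-/

namespace Pool.Agent.Results.MP_6ac11b_co.Disproof

open Pool.Agent.Helper39.Tri

/-- For every constant `C` and every sufficiently large `t` there are `n ≥ C t` and an extremal
graph in `𝒢(n, t)` without an isolated copy of `K_{t+1}`. -/
theorem result : ∀ C : ℝ, ∃ T : ℕ, ∀ t : ℕ, T ≤ t → ∃ n : ℕ, C * t ≤ n ∧ t + 1 ≤ n ∧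
    ∃ G : SimpleGraph (Fin n), Extremal n t G ∧ ¬ HasIsolatedClique t G := by
  intro C
  set k : ℕ := max 1 ⌈C⌉₊ with hk
  refine ⟨16 * (3 * k + 1 + 1) ^ 2 * (24 * k * (3 * k + 1) * (3 * k + 1 + 1)), fun t ht => ?_⟩
  have hk1 : 1 ≤ k := le_max_left _ _
  obtain ⟨n, hn, G, hG⟩ := main hk1 ht
  refine ⟨n, ?_, ?_, G, hG⟩
  · have h1 : C ≤ (k : ℝ) := (Nat.le_ceil C).trans (by exact_mod_cast le_max_right _ _)
    have h2 : (k : ℝ) * (t + 1) ≤ n := by exact_mod_cast hn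
    have h3 : (0 : ℝ) ≤ t := Nat.cast_nonneg t
    have h4 : (0 : ℝ) ≤ k := Nat.cast_nonneg k
    nlinarith
  · calc t + 1 = 1 * (t + 1) := by ring
      _ ≤ k * (t + 1) := Nat.mul_le_mul_right _ hk1
      _ ≤ n := hn

end Pool.Agent.Results.MP_6ac11b_co.Disproof
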